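import Mathlib

/-! Counting lemmas: kernels of surjective homomorphisms, colourings in which many large sets
see every colour, spanning families of subspaces. -/

set_option autoImplicit false
open Finset

namespace Pool.Agent.MP_1cd2aa_co

theorem card_ker_mul {Ω G : Type*} [AddCommGroup Ω] [AddCommGroup G] [Fintype Ω] [Fintype G]
    (f : Ω →+ G) (hf : Function.Surjective f) (s : Finset Ω) (hs : ∀ x, x ∈ s → f x = 0) :
    s.card * Fintype.card G ≤ Fintype.card Ω := by
  classical
  have h1 : Nat.card f.ker * f.ker.index = Nat.card Ω := f.ker.card_mul_index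
  have h2 : f.ker.index = Nat.card f.range := AddSubgroup.index_ker f
  have h3 : f.range = ⊤ := AddMonoidHom.range_eq_top.mpr hf
  rw [h3, AddSubgroup.card_top] at h2
  have h4 : s.card ≤ Nat.card f.ker := by
    have : Nat.card s ≤ Nat.card f.ker :=
      Nat.card_le_card_of_injective (fun x : s => (⟨x.1, hs x.1 x.2⟩ : f.ker)) (by
        intro a b hab
        exact Subtype.ext (congrArg (fun z : f.ker => z.1) hab))
    simpa using this
  rw [← Nat.card_eq_fintype_card, ← Nat.card_eq_fintype_card, ← h1, h2]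
  exact Nat.mul_le_mul_right _ h4

theorem bern (u k : ℕ) : u ^ (k + 1) + (k + 1) * u ^ k ≤ (u + 1) ^ (k + 1) := by
  induction k with
  | zero => simp
  | succ k ih =>
    have h : (u + 1) ^ (k + 1 + 1) = (u + 1) ^ (k + 1) * (u + 1) := pow_succ _ _
    have h2 : (u ^ (k + 1) + (k + 1) * u ^ k) * (u + 1) ≤ (u + 1) ^ (k + 1) * (u + 1) :=
      Nat.mul_le_mul_right _ ih
    have h3 : u ^ (k + 1 + 1) = u ^ (k + 1) * u := pow_succ _ _
    have h4 : u ^ (k + 1) = u ^ k * u := pow_succ _ _
    rw [h]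
    refine le_trans ?_ h2
    rw [h3, h4]
    nlinarith [Nat.zero_le (u ^ k), Nat.zero_le ((k + 1) * u ^ k)]

theorem two_mul_pow_le (u : ℕ) : 2 * u ^ (u + 1) ≤ (u + 1) ^ (u + 1) := by
  have h := bern u u
  have h4 : u ^ (u + 1) = u ^ u * u := pow_succ _ _
  rw [h4] at h ⊢
  nlinarith [Nat.zero_le (u ^ u)]

theorem pow_avoid (u t x : ℕ) (hx : (u + 1) * t ≤ x) : u ^ x * 2 ^ t ≤ (u + 1) ^ x := by
  obtain ⟨y, rfl⟩ := Nat.exists_eq_add_of_le hx
  have h1 : (2 * u ^ (u + 1)) ^ t ≤ ((u + 1) ^ (u + 1)) ^ t :=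
    Nat.pow_le_pow_left (two_mul_pow_le u) t
  have h2 : u ^ y ≤ (u + 1) ^ y := Nat.pow_le_pow_left (Nat.le_succ u) y
  calc u ^ ((u + 1) * t + y) * 2 ^ t = (2 * u ^ (u + 1)) ^ t * u ^ y := by
        rw [pow_add, pow_mul, mul_pow]; ring
    _ ≤ ((u + 1) ^ (u + 1)) ^ t * (u + 1) ^ y := Nat.mul_le_mul h1 h2
    _ = (u + 1) ^ ((u + 1) * t + y) := by rw [← pow_mul, ← pow_add]

theorem exists_colouring {Z P : Type*} [Finite Z] [Fintype P] (Q t : ℕ) (hQ : 1 ≤ Q)
    (X : P → Finset Z) (good : P → Prop) (hX : ∀ p, good p → Q * t ≤ (X p).card)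
    (h : Q * Fintype.card P < 2 ^ t) :
    ∃ ρ : Z → Fin Q, ∀ p, good p → ∀ c, ∃ x ∈ X p, ρ x = c := by
  classical
  have := Fintype.ofFinite Z
  obtain ⟨u, rfl⟩ : ∃ u, Q = u + 1 := ⟨Q - 1, by omega⟩
  by_contra hcon
  push Not at hcon
  let B : P × Fin (u + 1) → Finset (Z → Fin (u + 1)) := fun pc =>
    if good pc.1 then
      Fintype.piFinset (fun x => if x ∈ X pc.1 then univ.erase pc.2 else univ) else ∅
  have hB : ∀ pc, (B pc).card * 2 ^ t ≤ (u + 1) ^ Fintype.card Z := by
    intro pc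
    by_cases hg : good pc.1
    · have e1 : (B pc).card = u ^ (X pc.1).card * (u + 1) ^ ((X pc.1)ᶜ).card := by
        simp only [B, if_pos hg, Fintype.card_piFinset]
        rw [← Finset.prod_mul_prod_compl (X pc.1)]
        congr 1
        · rw [Finset.prod_congr rfl (g := fun _ => u)]
          · simp
          · intro x hx
            simp [hx]
        · rw [Finset.prod_congr rfl (g := fun _ => u + 1)]
          · simp
          · intro x hx
            have hx' : x ∉ X pc.1 := by simpa using hx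
            simp [hx']
      have e2 : Fintype.card Z = (X pc.1).card + ((X pc.1)ᶜ).card := by
        rw [Finset.card_add_card_compl]
      rw [e1, e2, pow_add]
      calc u ^ (X pc.1).card * (u + 1) ^ ((X pc.1)ᶜ).card * 2 ^ t
          = u ^ (X pc.1).card * 2 ^ t * (u + 1) ^ ((X pc.1)ᶜ).card := by ring
        _ ≤ _ := Nat.mul_le_mul_right _ (pow_avoid u t _ (hX _ hg))
    · simp [B, hg]
  have hsub : (univ : Finset (Z → Fin (u + 1))) ⊆ univ.biUnion B := by
    intro ρ _
    obtain ⟨p, hp, c, hc⟩ := hcon ρ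
    refine mem_biUnion.mpr ⟨(p, c), mem_univ _, ?_⟩
    simp only [B, if_pos hp, Fintype.mem_piFinset]
    intro x
    by_cases hx : x ∈ X p
    · simp [hx, hc x hx]
    · simp [hx]
  have h1 : (u + 1) ^ Fintype.card Z ≤ ∑ pc, (B pc).card := by
    have := (card_le_card hsub).trans card_biUnion_le
    simpa using this
  have h2 : (∑ pc, (B pc).card) * 2 ^ t
      ≤ (Fintype.card P * (u + 1)) * (u + 1) ^ Fintype.card Z := by
    rw [Finset.sum_mul]
    refine (Finset.sum_le_card_nsmul _ _ _ (fun pc _ => hB pc)).trans ?_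
    simp
  have h3 : 0 < (u + 1) ^ Fintype.card Z := by positivity
  have h4 : (u + 1) ^ Fintype.card Z * 2 ^ t
      ≤ (Fintype.card P * (u + 1)) * (u + 1) ^ Fintype.card Z :=
    (Nat.mul_le_mul_right _ h1).trans h2
  have h5 : 2 ^ t ≤ Fintype.card P * (u + 1) := by
    rw [mul_comm] at h4
    exact Nat.le_of_mul_le_mul_right h4 h3
  rw [mul_comm] at h
  omega

theorem exists_span_eq {F : Type*} [Field F] (m : ℕ) (B : Submodule F (Fin m → F)) :
    ∃ b : Fin m → Fin m → F, Submodule.span F (Set.range b) = B := by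
  classical
  have hle : Module.finrank F B ≤ m := by
    have := Submodule.finrank_le B
    simpa using this
  let β := Module.finBasis F B
  refine ⟨fun i => if h : i.1 < Module.finrank F B then (β ⟨i.1, h⟩ : Fin m → F) else 0, ?_⟩
  apply le_antisymm
  · rw [Submodule.span_le]
    rintro _ ⟨i, rfl⟩
    by_cases h : i.1 < Module.finrank F B
    · simp [h]
    · simp [h]
  · intro x hx
    have hrep := β.sum_repr ⟨x, hx⟩
    have hx' : x = ∑ j, β.repr ⟨x, hx⟩ j • (β j : Fin m → F) := by
      have := congrArg B.subtype hrep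
      rw [map_sum] at this
      simp only [map_smul, Submodule.subtype_apply] at this
      exact this.symm
    rw [hx']
    refine Submodule.sum_mem _ (fun j _ => Submodule.smul_mem _ _ (Submodule.subset_span ?_))
    exact ⟨⟨j.1, lt_of_lt_of_le j.2 hle⟩, by simp⟩

/-- some colour class is small -/
theorem exists_small_class {α : Type*} (s : Finset α) (Q : ℕ) (hQ : 1 ≤ Q) (f : α → Fin Q) :
    ∃ c, (s.filter (fun x => f x = c)).card * Q ≤ s.card := by
  classical
  have h1 : s.card = ∑ c : Fin Q, (s.filter (fun x => f x = c)).card :=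
    Finset.card_eq_sum_card_fiberwise (f := f) (s := s) (t := univ) (fun _ _ => by simp)
  have : Nonempty (Fin Q) := ⟨⟨0, hQ⟩⟩
  have h2 : ∑ c : Fin Q, (s.filter (fun x => f x = c)).card * Q ≤ ∑ _c : Fin Q, s.card := by
    rw [← Finset.sum_mul, ← h1]
    simp [mul_comm]
  obtain ⟨c, _, hc⟩ := Finset.exists_le_of_sum_le univ_nonempty h2
  exact ⟨c, hc⟩

end Pool.Agent.MP_1cd2aa_co
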