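import Pool.Agent.P.MP_1cd2aa_co.Pair

/-! Labels of the coordinates in a prime field: subcubes with distinct labels are met through a
power sum hash, the others through a pair of flip coordinates with equal labels. -/

set_option autoImplicit false
open Finset

namespace Pool.Agent.MP_1cd2aa_co

variable {n : ℕ}

/-- few members of a family have flip coordinates with equal labels -/
theorem exists_ell (p : ℕ) [Fact p.Prime] (A : Finset (Fin n → Option Bool))
    (hA : ∀ D ∈ A, (flips D).card = 2) : ∃ ℓ : Fin n → ZMod p, ∃ A' : Finset (Fin n → Option Bool),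
      A'.card * p ≤ A.card ∧ ∀ D ∈ A, ¬ Set.InjOn ℓ (flips D) → D ∈ A' := by
  classical
  let Ω := Fin n → ZMod p
  let B : Ω → Finset (Fin n → Option Bool) := fun ℓ =>
    A.filter (fun D => ¬ Set.InjOn ℓ (flips D))
  have hD : ∀ D ∈ A, ((univ : Finset Ω).filter
      (fun ℓ => ¬ Set.InjOn ℓ (flips D))).card * p ≤ Fintype.card Ω := by
    intro D hD
    obtain ⟨i, j, hij, hF⟩ := card_eq_two.mp (hA D hD)
    let f : Ω →+ ZMod p := Pi.evalAddMonoidHom (fun _ => ZMod p) i -
      Pi.evalAddMonoidHom (fun _ => ZMod p) j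
    have hf : Function.Surjective f := fun x => ⟨Pi.single i x, by
      show (Pi.single i x : Ω) i - (Pi.single i x : Ω) j = x
      rw [Pi.single_eq_same, Pi.single_eq_of_ne hij.symm, sub_zero]⟩
    have := card_ker_mul f hf ((univ : Finset Ω).filter (fun ℓ => ¬ Set.InjOn ℓ (flips D)))
      (fun ℓ hℓ => by
        have h1 := (mem_filter.mp hℓ).2
        rw [hF, coe_pair, Set.injOn_pair] at h1
        show ℓ i - ℓ j = 0
        by_contra h2
        exact h1 fun h3 => absurd (sub_eq_zero.mpr h3) h2)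
    rwa [ZMod.card] at this
  have hsum : ∑ ℓ : Ω, (B ℓ).card * p ≤ ∑ _ℓ : Ω, A.card := by
    have e1 : ∑ ℓ : Ω, (B ℓ).card = ∑ D ∈ A, ((univ : Finset Ω).filter
        (fun ℓ => ¬ Set.InjOn ℓ (flips D))).card := by
      simp only [B, card_filter]
      exact Finset.sum_comm
    rw [← Finset.sum_mul, e1, Finset.sum_mul]
    refine (Finset.sum_le_card_nsmul _ _ _ hD).trans (le_of_eq ?_)
    simp only [smul_eq_mul, sum_const, card_univ]
    ring
  obtain ⟨ℓ, _, hℓ⟩ := Finset.exists_le_of_sum_le univ_nonempty hsum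
  exact ⟨ℓ, B ℓ, hℓ, fun D h1 h2 => mem_filter.mpr ⟨h1, h2⟩⟩

/-- power sums determine a subset -/
theorem eq_of_power_sums {F : Type*} [Field F] {d : ℕ} {a : Fin d → F} (ha : Function.Injective a)
    {T T' : Finset (Fin d)}
    (h : ∀ k : Fin d, ∑ j ∈ T, a j ^ (k : ℕ) = ∑ j ∈ T', a j ^ (k : ℕ)) : T = T' := by
  have h1 := Matrix.eq_zero_of_forall_pow_sum_mul_pow_eq_zero ha
    (v := fun j => (if j ∈ T then 1 else 0) - if j ∈ T' then 1 else 0) (fun k => by
      simp only [sub_mul, sum_sub_distrib, ite_mul, one_mul, zero_mul, sum_ite_mem, univ_inter]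
      rw [h k, sub_self])
  ext j
  have h2 := congrFun h1 j
  by_cases h3 : j ∈ T <;> by_cases h4 : j ∈ T' <;> simp_all

/-- signatures of the 2-subcubes of a subcube with labels `P.1` and offset `P.2` -/
def hsig {F : Type*} [Field F] [DecidableEq F] {d : ℕ} (P : (Fin d → F) × (Fin d → F)) :
    Finset (Finset F × (Fin d → F)) :=
  (Obj d).image fun o => (o.1.image P.1, fun k => P.2 k + ∑ j ∈ o.2, P.1 j ^ (k : ℕ))

theorem card_hsig {F : Type*} [Field F] [DecidableEq F] {d : ℕ} (P : (Fin d → F) × (Fin d → F))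
    (h : Function.Injective P.1) : (hsig P).card = d.choose 2 * 2 ^ (d - 2) := by
  unfold hsig
  rw [card_image_of_injOn, card_Obj]
  rintro ⟨G, T⟩ _ ⟨G', T'⟩ _ e
  have e1 : G = G' := image_injective h (congrArg Prod.fst e)
  have e2 : T = T' := eq_of_power_sums h fun k => add_left_cancel (congrFun (congrArg Prod.snd e) k)
  subst e1 e2
  rfl

theorem hash_colouring (d p q t : ℕ) [Fact p.Prime] (hq1 : 1 ≤ q)
    (hq : q * t ≤ d.choose 2 * 2 ^ (d - 2)) (h : q * p ^ (2 * d) < 2 ^ t) (ℓ : Fin n → ZMod p) :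
    ∃ col : (Fin n → Option Bool) → Fin q, ∀ C, (flips C).card = d → Set.InjOn ℓ (flips C) →
      ∀ c, ∃ D, (flips D).card = 2 ∧ (∀ i b, C i = some b → D i = some b) ∧ col D = c := by
  classical
  obtain ⟨ρ, hρ⟩ := exists_colouring q t hq1 (hsig (F := ZMod p) (d := d))
    (fun P => Function.Injective P.1) (fun P hP => by rw [card_hsig P hP]; exact hq)
    (by rw [Fintype.card_prod, Fintype.card_fun, ZMod.card, Fintype.card_fin, ← pow_add,
      ← two_mul]; exact h)
  refine ⟨fun D => ρ ((flips D).image ℓ, fun k => ∑ i ∈ bot D, ℓ i ^ (k : ℕ)),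
    fun C hC hℓ c => ?_⟩
  obtain ⟨e, he, -⟩ := exists_emb C hC
  obtain ⟨x, hx, hxc⟩ := hρ (fun j => ℓ (e j), fun k => ∑ i ∈ bot C, ℓ i ^ (k : ℕ))
    (fun j j' hj => e.injective (hℓ (mem_flips.mpr (he j)) (mem_flips.mpr (he j')) hj)) c
  obtain ⟨o, ho, rfl⟩ := mem_image.mp hx
  obtain ⟨ho1, ho2⟩ := mem_Obj.mp ho
  refine ⟨sub C e o.1 o.2, by rw [flips_sub, card_map, ho1], sub_ext he _ _, ?_⟩
  have hdis : Disjoint (bot C) (o.2.map e) := by
    rw [Finset.disjoint_right]
    intro i hi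
    obtain ⟨j, _, rfl⟩ := mem_map.mp hi
    simp [bot, he j]
  simp only [flips_sub, bot_sub he o.1 o.2 ho2, sum_union hdis, sum_map]
  rw [map_eq_image, image_image]
  exact hxc

theorem exists_free_sharp (n d : ℕ) (hd : 7 ≤ d) (Q : Finset (Fin n → Option Bool))
    (hQ : ∀ D, D ∈ Q ↔ (flips D).card = 2) :
    ∃ S : Finset (Fin n → Option Bool), S ⊆ Q ∧
      (∀ C, (flips C).card = d →
        ¬ ∀ D, (flips D).card = 2 → (∀ i b, C i = some b → D i = some b) → D ∈ S) ∧
      Q.card * (d * 2 ^ d) ≤ S.card * (d * 2 ^ d) + 314 * (Nat.log 2 d + 1) * Q.card := by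
  classical
  set L := Nat.log 2 d + 1 with hL
  have hdL : d < 2 ^ L := Nat.lt_pow_succ_log_self (by norm_num) d
  have hL3 : 3 ≤ L := by
    have : 2 ≤ Nat.log 2 d := Nat.le_log_of_pow_le (by norm_num) (by omega)
    omega
  have hLd : L ≤ d - 1 := by
    have : Nat.log 2 d < d - 1 := Nat.log_lt_of_lt_pow (by omega) (by
      obtain ⟨e, rfl⟩ := Nat.exists_eq_add_of_le hd
      have h1 : 7 + e - 1 = e + 6 := by omega
      have h2 := Nat.lt_two_pow_self (n := e)
      rw [h1, pow_add]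
      omega)
    omega
  obtain ⟨p, hp, hp1, hp2⟩ := Nat.exists_prime_lt_and_le_two_mul (d ^ 3) (by positivity)
  have : Fact p.Prime := ⟨hp⟩
  obtain ⟨e, rfl⟩ := Nat.exists_eq_add_of_le hd
  set d := 7 + e with hde
  have hch : d.choose 2 * 2 = d * (6 + e) := by
    have := Nat.add_one_mul_choose_eq (6 + e) 1
    have e1 : 6 + e + 1 = d := by omega
    rw [e1] at this
    simp only [Nat.choose_one_right] at this
    exact this.symm
  have e2 : 2 ^ (d - 2) = 2 ^ e * 32 := by
    have : d - 2 = e + 5 := by omega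
    rw [this, pow_add]
    norm_num
  have e0 : 2 ^ d = 2 ^ e * 128 := by
    rw [hde, add_comm, pow_add]
    norm_num
  have hM : d.choose 2 * 2 ^ (d - 2) = d * ((6 + e) * 2 ^ e * 16) := by
    rw [e2]
    calc _ = d.choose 2 * 2 * (2 ^ e * 16) := by ring
      _ = _ := by rw [hch]; ring
  have hpe : 1 ≤ 2 ^ e := Nat.one_le_two_pow
  obtain ⟨q, hq1, hq, hq'⟩ : ∃ q, 1 ≤ q ∧ q * L ≤ (6 + e) * 2 ^ e * 2 ∧
      (6 + e) * 2 ^ e ≤ q * L := by
    have hpos : 0 < L := by omega
    have h1 : 1 ≤ (6 + e) * 2 ^ e * 2 / L := (Nat.one_le_div_iff hpos).mpr (by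
      have : L ≤ 6 + e := by omega
      nlinarith)
    refine ⟨_, h1, Nat.div_mul_le_self _ _, ?_⟩
    have h2 := Nat.lt_div_mul_add (a := (6 + e) * 2 ^ e * 2) hpos
    nlinarith
  have hcount : q * p ^ (2 * d) < 2 ^ (8 * d * L) := by
    have h1 : p ≤ 2 ^ (3 * L + 1) := by
      have : d ^ 3 ≤ (2 ^ L) ^ 3 := Nat.pow_le_pow_left hdL.le 3
      rw [← pow_mul, mul_comm] at this
      rw [pow_succ]
      omega
    have h2 : p ^ (2 * d) ≤ 2 ^ ((3 * L + 1) * (2 * d)) := by
      rw [pow_mul 2]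
      exact Nat.pow_le_pow_left h1 _
    have h3 : q < 2 ^ (L + d) := by
      rw [pow_add, e0]
      have : 6 + e < 2 ^ L := by omega
      nlinarith
    calc _ ≤ q * 2 ^ ((3 * L + 1) * (2 * d)) := Nat.mul_le_mul_left _ h2
      _ < 2 ^ (L + d) * 2 ^ ((3 * L + 1) * (2 * d)) :=
          Nat.mul_lt_mul_of_pos_right h3 (by positivity)
      _ ≤ _ := by
          rw [← pow_add]
          exact Nat.pow_le_pow_right (by norm_num) (by nlinarith)
  obtain ⟨A, hAQ, hA, hAC⟩ := exists_pair_family n d (by omega) Q hQ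
  obtain ⟨ℓ, A', hA', hAA⟩ := exists_ell p A fun D hD => (hQ D).mp (hAQ hD)
  obtain ⟨col, hcol⟩ := hash_colouring d p q (8 * d * L) hq1 (by rw [hM]; nlinarith) hcount ℓ
  obtain ⟨c, hc⟩ := exists_small_class Q q hq1 col
  refine ⟨Q \ (A' ∪ Q.filter (fun D => col D = c)), sdiff_subset, fun C hC hall => ?_, ?_⟩
  · by_cases hinj : Set.InjOn ℓ (flips C)
    · obtain ⟨D, hD, hCD, hDc⟩ := hcol C hC hinj c
      have := mem_sdiff.mp (hall D hD hCD)
      exact this.2 (mem_union_right _ (mem_filter.mpr ⟨this.1, hDc⟩))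
    · simp only [Set.InjOn, not_forall] at hinj
      obtain ⟨i, hi, j, hj, h1, h2⟩ := hinj
      obtain ⟨D, hDA, hD, hCD⟩ := hAC C hC {i, j} (by
        rw [insert_subset_iff, singleton_subset_iff]
        exact ⟨hi, hj⟩) (card_pair h2)
      refine (mem_sdiff.mp (hall D ((hQ D).mp (hAQ hDA)) hCD)).2
        (mem_union_left _ (hAA D hDA fun h3 => h2 (h3 ?_ ?_ h1)))
      · rw [hD]; simp
      · rw [hD]; simp
  · have h1 : Q.card ≤ (Q \ (A' ∪ Q.filter (fun D => col D = c))).card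
        + (A'.card + (Q.filter (fun D => col D = c)).card) :=
      (Finset.card_le_card_sdiff_add_card).trans (Nat.add_le_add_left (card_union_le _ _) _)
    have h2 : A'.card * (d * 2 ^ d) ≤ 164 * L * Q.card := by
      have k1 : A'.card * d ^ 3 ≤ A.card := (Nat.mul_le_mul_left _ hp1.le).trans hA'
      have k2 : 480 * d ^ 2 + 512 ≤ 164 * L * d ^ 2 := by nlinarith
      have k3 : A'.card * (d * 2 ^ d) * d ^ 2 ≤ 164 * L * Q.card * d ^ 2 :=
        calc _ = A'.card * d ^ 3 * 2 ^ d := by ring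
          _ ≤ A.card * 2 ^ d := Nat.mul_le_mul_right _ k1
          _ ≤ (480 * d ^ 2 + 512) * Q.card := hA
          _ ≤ 164 * L * d ^ 2 * Q.card := Nat.mul_le_mul_right _ k2
          _ = _ := by ring
      exact Nat.le_of_mul_le_mul_right k3 (by positivity)
    have h3 : (Q.filter (fun D => col D = c)).card * (d * 2 ^ d) ≤ 150 * L * Q.card := by
      have k1 : d * 2 ^ d ≤ 150 * L * q := by
        rw [e0]
        nlinarith
      calc _ ≤ (Q.filter (fun D => col D = c)).card * (150 * L * q) := Nat.mul_le_mul_left _ k1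
        _ = 150 * L * ((Q.filter (fun D => col D = c)).card * q) := by ring
        _ ≤ _ := Nat.mul_le_mul_left _ hc
    have h4 := Nat.mul_le_mul_right (d * 2 ^ d) h1
    nlinarith

end Pool.Agent.MP_1cd2aa_co
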