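import Pool.Agent.P.MP_1cd2aa_co.Count

/-! Random labels over the field with two elements; degenerate sets are rare; window subspaces. -/

set_option autoImplicit false
open Finset

namespace Pool.Agent.MP_1cd2aa_co

abbrev F2 := ZMod 2

variable {n L : ℕ}

/-- entry of the label of coordinate `i` in column `c` (zero past the last column) -/
def ent (v : Fin n → Fin L → F2) (i : Fin n) (c : ℕ) : F2 :=
  if h : c < L then v i ⟨c, h⟩ else 0

theorem ent_add (v w : Fin n → Fin L → F2) (i : Fin n) (c : ℕ) :
    ent (v + w) i c = ent v i c + ent w i c := by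
  unfold ent
  split_ifs <;> simp

theorem ent_zero (i : Fin n) (c : ℕ) : ent (0 : Fin n → Fin L → F2) i c = 0 := by
  unfold ent
  split_ifs <;> simp

/-- column `c` of the combination of labels with coefficients `a` -/
def comb (v : Fin n → Fin L → F2) (c : ℕ) : (Fin n → F2) →ₗ[F2] F2 where
  toFun a := ∑ i, a i * ent v i c
  map_add' a b := by simp [add_mul, Finset.sum_add_distrib]
  map_smul' r a := by simp [Finset.mul_sum, mul_assoc]

theorem comb_apply (v : Fin n → Fin L → F2) (c : ℕ) (a : Fin n → F2) :
    comb v c a = ∑ i, a i * ent v i c := rfl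

theorem comb_single (v : Fin n → Fin L → F2) (c : ℕ) (i : Fin n) :
    comb v c (Pi.single i 1) = ent v i c := by
  rw [comb_apply, Finset.sum_eq_single i]
  · simp
  · intro j _ hj
    simp [hj]
  · simp

/-- coefficient vectors supported on `S` -/
def supp (S : Finset (Fin n)) : Submodule F2 (Fin n → F2) where
  carrier := {a | ∀ i, i ∉ S → a i = 0}
  add_mem' := by
    intro a b ha hb i hi
    simp [ha i hi, hb i hi]
  zero_mem' := by
    intro i _
    rfl
  smul_mem' := by
    intro r a ha i hi
    simp [ha i hi]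

theorem mem_supp {S : Finset (Fin n)} {a : Fin n → F2} : a ∈ supp S ↔ ∀ i, i ∉ S → a i = 0 :=
  Iff.rfl

/-- the labels of `S` are independent on the first `|S| + K` columns -/
def Inj (v : Fin n → Fin L → F2) (K : ℕ) (S : Finset (Fin n)) : Prop :=
  ∀ a ∈ supp S, (∀ c, c < S.card + K → comb v c a = 0) → a = 0

/-- the labels of `S` span the first `|S| - K` columns -/
def Spn (v : Fin n → Fin L → F2) (K : ℕ) (S : Finset (Fin n)) : Prop :=
  ∀ y : ℕ → F2, ∃ a ∈ supp S, ∀ c, c + K < S.card → comb v c a = y c

theorem card_F2 : Fintype.card F2 = 2 := ZMod.card 2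

theorem card_not_inj (K : ℕ) (S : Finset (Fin n)) (hL : S.card + K ≤ L)
    (bad : Finset (Fin n → Fin L → F2)) (hbad : ∀ v ∈ bad, ¬ Inj v K S) :
    bad.card * 2 ^ K ≤ Fintype.card (Fin n → Fin L → F2) := by
  classical
  let A : Finset (Fin n → F2) :=
    (Fintype.piFinset (fun i => if i ∈ S then univ else {0})).erase 0
  have hA : A.card ≤ 2 ^ S.card := by
    refine (Finset.card_erase_le).trans ?_
    rw [Fintype.card_piFinset, ← Finset.prod_mul_prod_compl S,
      Finset.prod_congr rfl (g := fun _ => 2) (s₁ := S),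
      Finset.prod_congr rfl (g := fun _ => 1) (s₁ := Sᶜ)]
    · simp
    · intro x hx
      have hx' : x ∉ S := by simpa using hx
      simp [hx']
    · intro x hx
      simp [hx]
  let E : (Fin n → F2) → Finset (Fin n → Fin L → F2) := fun a =>
    univ.filter (fun v => ∀ c, c < S.card + K → comb v c a = 0)
  have hE : ∀ a ∈ A, (E a).card * 2 ^ (S.card + K) ≤ Fintype.card (Fin n → Fin L → F2) := by
    intro a ha
    have ha0 : a ≠ 0 := (Finset.mem_erase.mp ha).1
    obtain ⟨i0, hi0⟩ : ∃ i, a i ≠ 0 := by
      by_contra hc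
      push Not at hc
      exact ha0 (funext hc)
    let f : (Fin n → Fin L → F2) →+ (Fin (S.card + K) → F2) :=
      { toFun := fun v c => comb v c.1 a
        map_zero' := by
          funext c
          simp [comb_apply, ent_zero]
        map_add' := by
          intro v w
          funext c
          simp [comb_apply, ent_add, mul_add, Finset.sum_add_distrib] }
    have hf : Function.Surjective f := by
      intro y
      refine ⟨fun i c => if i = i0 then
        (if h : c.1 < S.card + K then (a i0)⁻¹ * y ⟨c.1, h⟩ else 0) else 0, ?_⟩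
      funext c
      have hc : c.1 < L := lt_of_lt_of_le c.2 hL
      simp only [f, AddMonoidHom.coe_mk, ZeroHom.coe_mk, comb_apply]
      rw [Finset.sum_eq_single i0]
      · simp only [ent, hc, dif_pos, if_true, c.2]
        rw [← mul_assoc, mul_inv_cancel₀ hi0, one_mul]
      · intro j _ hj
        simp [ent, hj]
      · simp
    have := card_ker_mul f hf (E a) (by
      intro v hv
      funext c
      exact (Finset.mem_filter.mp hv).2 c.1 c.2)
    simpa [card_F2] using this
  have hsub : bad ⊆ A.biUnion E := by
    intro v hv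
    have := hbad v hv
    unfold Inj at this
    push Not at this
    obtain ⟨a, ha, hc, h0⟩ := this
    refine mem_biUnion.mpr ⟨a, Finset.mem_erase.mpr ⟨h0, ?_⟩, ?_⟩
    · rw [Fintype.mem_piFinset]
      intro i
      by_cases hi : i ∈ S
      · simp [hi]
      · simp [hi, ha i hi]
    · exact Finset.mem_filter.mpr ⟨mem_univ _, hc⟩
  have h1 : bad.card ≤ ∑ a ∈ A, (E a).card := (card_le_card hsub).trans card_biUnion_le
  have h2 : (∑ a ∈ A, (E a).card) * 2 ^ (S.card + K)
      ≤ 2 ^ S.card * Fintype.card (Fin n → Fin L → F2) := by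
    rw [Finset.sum_mul]
    refine (Finset.sum_le_card_nsmul _ _ _ hE).trans ?_
    rw [smul_eq_mul]
    exact Nat.mul_le_mul_right _ hA
  have h3 : 2 ^ S.card * (bad.card * 2 ^ K)
      ≤ 2 ^ S.card * Fintype.card (Fin n → Fin L → F2) := by
    refine le_trans ?_ h2
    rw [pow_add]
    calc 2 ^ S.card * (bad.card * 2 ^ K) = bad.card * (2 ^ S.card * 2 ^ K) := by ring
      _ ≤ _ := Nat.mul_le_mul_right _ h1
  exact Nat.le_of_mul_le_mul_left h3 (by positivity)

theorem exists_ann (v : Fin n → Fin L → F2) (K : ℕ) (S : Finset (Fin n)) (h : ¬ Spn v K S) :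
    ∃ g : Fin (S.card - K) → F2, g ≠ 0 ∧ ∀ i ∈ S, ∑ c, g c * ent v i c.1 = 0 := by
  classical
  let Φ : (Fin n → F2) →ₗ[F2] (Fin (S.card - K) → F2) := LinearMap.pi (fun c => comb v c.1)
  have hW : (supp S).map Φ < ⊤ := by
    rw [lt_top_iff_ne_top]
    intro htop
    apply h
    intro y
    have : (fun c : Fin (S.card - K) => y c.1) ∈ (supp S).map Φ := by
      rw [htop]; trivial
    obtain ⟨a, ha, hy⟩ := Submodule.mem_map.mp this
    refine ⟨a, ha, fun c hc => ?_⟩
    have := congrFun hy ⟨c, by omega⟩
    simpa [Φ] using this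
  obtain ⟨f, hf0, hf⟩ := Submodule.exists_le_ker_of_lt_top _ hW
  have hrep : ∀ x : Fin (S.card - K) → F2, f x = ∑ c, f (Pi.single c 1) * x c := by
    intro x
    conv_lhs => rw [← Finset.univ_sum_single x]
    rw [map_sum]
    refine Finset.sum_congr rfl (fun c _ => ?_)
    have : (Pi.single c (x c) : Fin (S.card - K) → F2) = x c • Pi.single c 1 := by
      rw [← Pi.single_smul, smul_eq_mul, mul_one]
    rw [this, map_smul, smul_eq_mul, mul_comm]
  refine ⟨fun c => f (Pi.single c 1), ?_, ?_⟩
  · intro h0
    apply hf0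
    ext x
    have := congrFun h0 x
    simpa using this
  · intro i hi
    have hm : Φ (Pi.single i 1) ∈ (supp S).map Φ := by
      refine Submodule.mem_map_of_mem ?_
      intro j hj
      have : j ≠ i := fun e => hj (e ▸ hi)
      simp [this]
    have h0 : f (Φ (Pi.single i 1)) = 0 := hf hm
    rw [hrep] at h0
    simpa [Φ, comb_single] using h0

theorem card_not_spn (K : ℕ) (S : Finset (Fin n)) (hL : S.card ≤ L)
    (bad : Finset (Fin n → Fin L → F2)) (hbad : ∀ v ∈ bad, ¬ Spn v K S) :
    bad.card * 2 ^ K ≤ Fintype.card (Fin n → Fin L → F2) := by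
  classical
  by_cases hK : S.card ≤ K
  · have : bad = ∅ := by
      rw [Finset.eq_empty_iff_forall_notMem]
      intro v hv
      apply hbad v hv
      intro y
      exact ⟨0, Submodule.zero_mem _, fun c hc => by omega⟩
    simp [this]
  let A : Finset (Fin (S.card - K) → F2) := univ.erase 0
  have hA : A.card ≤ 2 ^ (S.card - K) := by
    refine (Finset.card_erase_le).trans ?_
    simp
  let E : (Fin (S.card - K) → F2) → Finset (Fin n → Fin L → F2) := fun g =>
    univ.filter (fun v => ∀ i ∈ S, ∑ c, g c * ent v i c.1 = 0)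
  have hE : ∀ g ∈ A, (E g).card * 2 ^ S.card ≤ Fintype.card (Fin n → Fin L → F2) := by
    intro g hg
    have hg0 : g ≠ 0 := (Finset.mem_erase.mp hg).1
    obtain ⟨c0, hc0⟩ : ∃ c, g c ≠ 0 := by
      by_contra hc
      push Not at hc
      exact hg0 (funext hc)
    let f : (Fin n → Fin L → F2) →+ (S → F2) :=
      { toFun := fun v i => ∑ c, g c * ent v i.1 c.1
        map_zero' := by
          funext i
          simp [ent_zero]
        map_add' := by
          intro v w
          funext i
          simp [ent_add, mul_add, Finset.sum_add_distrib] }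
    have hf : Function.Surjective f := by
      intro y
      refine ⟨fun i c => if c.1 = c0.1 then
        (if h : i ∈ S then (g c0)⁻¹ * y ⟨i, h⟩ else 0) else 0, ?_⟩
      funext i
      have hc : c0.1 < L := by
        have := c0.2
        omega
      simp only [f, AddMonoidHom.coe_mk, ZeroHom.coe_mk]
      rw [Finset.sum_eq_single c0]
      · simp only [ent, hc, dif_pos, if_true, i.2]
        rw [← mul_assoc, mul_inv_cancel₀ hc0, one_mul]
      · intro c _ hcc
        have : c.1 ≠ c0.1 := fun e => hcc (Fin.ext e)
        simp [ent, this]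
      · simp
    have := card_ker_mul f hf (E g) (by
      intro v hv
      funext i
      exact (Finset.mem_filter.mp hv).2 i.1 i.2)
    simpa [card_F2] using this
  have hsub : bad ⊆ A.biUnion E := by
    intro v hv
    obtain ⟨g, hg0, hg⟩ := exists_ann v K S (hbad v hv)
    exact mem_biUnion.mpr ⟨g, Finset.mem_erase.mpr ⟨hg0, mem_univ _⟩,
      Finset.mem_filter.mpr ⟨mem_univ _, hg⟩⟩
  have h1 : bad.card ≤ ∑ a ∈ A, (E a).card := (card_le_card hsub).trans card_biUnion_le
  have h2 : (∑ a ∈ A, (E a).card) * 2 ^ S.card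
      ≤ 2 ^ (S.card - K) * Fintype.card (Fin n → Fin L → F2) := by
    rw [Finset.sum_mul]
    refine (Finset.sum_le_card_nsmul _ _ _ hE).trans ?_
    rw [smul_eq_mul]
    exact Nat.mul_le_mul_right _ hA
  have h3 : 2 ^ (S.card - K) * (bad.card * 2 ^ K)
      ≤ 2 ^ (S.card - K) * Fintype.card (Fin n → Fin L → F2) := by
    refine le_trans ?_ h2
    have e : 2 ^ S.card = 2 ^ (S.card - K) * 2 ^ K := by
      rw [← pow_add]
      congr 1
      omega
    rw [e]
    calc 2 ^ (S.card - K) * (bad.card * 2 ^ K) = bad.card * (2 ^ (S.card - K) * 2 ^ K) := by ring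
      _ ≤ _ := Nat.mul_le_mul_right _ h1
  exact Nat.le_of_mul_le_mul_left h3 (by positivity)

/-- combinations that vanish on the first `lo` columns -/
def low (v : Fin n → Fin L → F2) (lo : ℕ) : Submodule F2 (Fin n → F2) where
  carrier := {a | ∀ c, c < lo → comb v c a = 0}
  add_mem' := by
    intro a b ha hb c hc
    simp [ha c hc, hb c hc]
  zero_mem' := by
    intro c _
    simp
  smul_mem' := by
    intro r a ha c hc
    simp [ha c hc]

/-- the `m` columns from `lo` on -/
def win (v : Fin n → Fin L → F2) (lo m : ℕ) : (Fin n → F2) →ₗ[F2] (Fin m → F2) :=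
  LinearMap.pi (fun c => comb v (lo + c.1))

/-- the window subspace of `S` -/
def sig (v : Fin n → Fin L → F2) (lo m : ℕ) (S : Finset (Fin n)) : Submodule F2 (Fin m → F2) :=
  (supp S ⊓ low v lo).map (win v lo m)

/-- abstract form of the window subspaces inside one subcube -/
def ext {m d : ℕ} (b : Fin m → Fin m → F2) (w : Fin d → Fin m → F2) (T : Finset (Fin d)) :
    Submodule F2 (Fin m → F2) :=
  Submodule.span F2 (Set.range b) ⊔ Submodule.span F2 (w '' (T : Set (Fin d)))

theorem exists_pattern {d : ℕ} (v : Fin n → Fin L → F2) (K lo m : ℕ) (A : Finset (Fin n))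
    (e : Fin d ↪ Fin n) (hA : ∀ j, e j ∉ A) (hS : Spn v K A) (hlo : ∀ c, c < lo → c + K < A.card)
    (hI : Inj v K (A ∪ univ.map e)) (hhi : (A ∪ univ.map e).card + K ≤ lo + m) :
    ∃ (b : Fin m → Fin m → F2) (w : Fin d → Fin m → F2),
      (∀ T, sig v lo m (A ∪ T.map e) = ext b w T) ∧ ∀ T j, w j ∈ ext b w T → j ∈ T := by
  classical
  obtain ⟨b, hb⟩ := exists_span_eq m (sig v lo m A)
  choose a ha hc using fun j : Fin d => hS (fun c => ent v (e j) c)
  let u : Fin d → Fin n → F2 := fun j => Pi.single (e j) 1 - a j
  have hulow : ∀ j, u j ∈ low v lo := by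
    intro j c hcl
    simp only [u, map_sub, comb_single]
    rw [hc j c (hlo c hcl), sub_self]
  have hue : ∀ j j', u j (e j') = if j' = j then 1 else 0 := by
    intro j j'
    have h0 : a j (e j') = 0 := ha j _ (hA j')
    by_cases h : j' = j
    · subst h
      simp [u, h0]
    · have : e j' ≠ e j := fun hh => h (e.injective hh)
      simp [u, h0, this, h]
  have husupp : ∀ (T : Finset (Fin d)) j, j ∈ T → u j ∈ supp (A ∪ T.map e) := by
    intro T j hj i hi
    have hiA : i ∉ A := fun h => hi (mem_union_left _ h)
    have hie : i ≠ e j := fun h => hi (mem_union_right _ (h ▸ mem_map_of_mem e hj))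
    simp [u, ha j i hiA, hie]
  have hsig : ∀ T : Finset (Fin d),
      sig v lo m (A ∪ T.map e) = ext b (fun j => win v lo m (u j)) T := by
    intro T
    unfold ext
    rw [hb]
    apply le_antisymm
    · rintro _ ⟨x, ⟨hx1, hx2⟩, rfl⟩
      have hdec : x = (x - ∑ j ∈ T, x (e j) • u j) + ∑ j ∈ T, x (e j) • u j := by abel
      rw [hdec, map_add]
      refine Submodule.add_mem_sup ?_ ?_
      · refine Submodule.mem_map_of_mem ⟨?_, ?_⟩
        · intro i hi
          by_cases hiT : i ∈ T.map e
          · obtain ⟨j0, hj0, rfl⟩ := mem_map.mp hiT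
            simp only [Pi.sub_apply, Finset.sum_apply, Pi.smul_apply, smul_eq_mul, hue]
            rw [Finset.sum_eq_single j0]
            · simp
            · intro j _ hj
              simp [Ne.symm hj]
            · intro h
              exact absurd hj0 h
          · have hi' : i ∉ A ∪ T.map e := by
              rw [mem_union]
              tauto
            have h1 : x i = 0 := hx1 i hi'
            have h2 : (∑ j ∈ T, x (e j) • u j) i = 0 :=
              (Submodule.sum_mem _
                (fun j hj => Submodule.smul_mem _ _ (husupp T j hj)) :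
                  (∑ j ∈ T, x (e j) • u j) ∈ supp (A ∪ T.map e)) i hi'
            rw [Pi.sub_apply, h1, h2, sub_self]
        · exact Submodule.sub_mem _ hx2
            (Submodule.sum_mem _ (fun j _ => Submodule.smul_mem _ _ (hulow j)))
      · rw [map_sum]
        refine Submodule.sum_mem _ (fun j hj => ?_)
        rw [map_smul]
        exact Submodule.smul_mem _ _ (Submodule.subset_span ⟨j, hj, rfl⟩)
    · refine sup_le ?_ ?_
      · refine Submodule.map_mono (inf_le_inf_right _ ?_)
        intro x hx i hi
        exact hx i (fun h => hi (mem_union_left _ h))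
      · rw [Submodule.span_le]
        rintro _ ⟨j, hj, rfl⟩
        exact Submodule.mem_map_of_mem ⟨husupp T j hj, hulow j⟩
  refine ⟨b, fun j => win v lo m (u j), hsig, ?_⟩
  intro T j hj
  rw [← hsig] at hj
  obtain ⟨x, ⟨hx1, hx2⟩, hx⟩ := hj
  have hz : u j - x = 0 := by
    apply hI
    · refine Submodule.sub_mem _ (husupp univ j (mem_univ _)) ?_
      intro i hi
      refine hx1 i (fun h => hi ?_)
      rcases mem_union.mp h with h | h
      · exact mem_union_left _ h
      · exact mem_union_right _ (map_subset_map.mpr (subset_univ _) h)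
    · intro c hcc
      by_cases hcl : c < lo
      · exact (Submodule.sub_mem _ (hulow j) hx2 : u j - x ∈ low v lo) c hcl
      · have hcm : c - lo < m := by omega
        have := congrFun hx ⟨c - lo, hcm⟩
        simp only [win, LinearMap.pi_apply] at this
        have e1 : lo + (c - lo) = c := by omega
        rw [e1] at this
        rw [map_sub, this, sub_self]
  have hxe : x (e j) = 1 := by
    have h1 := congrFun hz (e j)
    rw [Pi.sub_apply, hue, if_pos rfl, Pi.zero_apply, sub_eq_zero] at h1
    exact h1.symm
  by_contra hjT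
  have : x (e j) = 0 := by
    apply hx1
    rw [mem_union]
    rintro (h | h)
    · exact hA j h
    · exact hjT ((mem_map' e).mp h)
  rw [this] at hxe
  exact zero_ne_one hxe

theorem ext_inj {m d : ℕ} (b : Fin m → Fin m → F2) (w : Fin d → Fin m → F2)
    (h : ∀ T j, w j ∈ ext b w T → j ∈ T) {T T' : Finset (Fin d)} (e : ext b w T = ext b w T') :
    T = T' := by
  have key : ∀ U U' : Finset (Fin d), ext b w U = ext b w U' → U ⊆ U' := by
    intro U U' hU j hj
    apply h
    rw [← hU]
    exact Submodule.mem_sup_right (Submodule.subset_span ⟨j, hj, rfl⟩)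
  exact Finset.Subset.antisymm (key _ _ e) (key _ _ e.symm)

end Pool.Agent.MP_1cd2aa_co
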