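import Pool.Agent.P.MP_1cd2aa_co.Lin

/-! An almost polychromatic colouring of the 2-subcubes with `2 ^ (d - 9)` colours. -/

set_option autoImplicit false
open Finset

namespace Pool.Agent.MP_1cd2aa_co

/-- the 2-subcubes of the abstract `d`-cube: flip set and set of ones -/
def Obj (d : ℕ) : Finset (Σ _ : Finset (Fin d), Finset (Fin d)) :=
  (powersetCard 2 univ).sigma (fun F => Fᶜ.powerset)

theorem mem_Obj {d : ℕ} {o : Σ _ : Finset (Fin d), Finset (Fin d)} :
    o ∈ Obj d ↔ o.1.card = 2 ∧ Disjoint o.2 o.1 := by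
  simp [Obj, mem_sigma, mem_powersetCard, subset_compl_iff_disjoint_right]

theorem card_Obj (d : ℕ) : (Obj d).card = d.choose 2 * 2 ^ (d - 2) := by
  unfold Obj
  rw [card_sigma, Finset.sum_congr rfl (g := fun _ => 2 ^ (d - 2))]
  · simp
  · intro F hF
    have : F.card = 2 := (mem_powersetCard.mp hF).2
    rw [card_powerset, card_compl, this]
    simp

abbrev Pat (m d : ℕ) := (Fin m → Fin m → F2) × (Fin d → Fin m → F2) × (Fin (d + 1) → Bool)

theorem card_Pat (m d : ℕ) : Fintype.card (Pat m d) = 2 ^ (m * m + m * d + (d + 1)) := by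
  simp [Pat, pow_add, pow_mul, mul_assoc]

def lev {d : ℕ} (T : Finset (Fin d)) : Fin (d + 1) :=
  ⟨T.card, Nat.lt_succ_of_le (by simpa using card_le_univ T)⟩

def part {m d : ℕ} (p : Pat m d) : Finset (Σ _ : Finset (Fin d), Finset (Fin d)) :=
  (Obj d).filter (fun o => p.2.2 (lev o.2) = true)

open Classical in
noncomputable def sigs {m d : ℕ} (p : Pat m d) :
    Finset (Submodule F2 (Fin m → F2) × Submodule F2 (Fin m → F2)) :=
  (part p).image (fun o => (ext p.1 p.2.1 o.2, ext p.1 p.2.1 (o.2 ∪ o.1)))

def goodPat {m d : ℕ} (p : Pat m d) : Prop :=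
  (∀ T j, p.2.1 j ∈ ext p.1 p.2.1 T → j ∈ T) ∧ (Obj d).card ≤ 2 * (part p).card

theorem card_sigs {m d : ℕ} (p : Pat m d) (hp : goodPat p) : (sigs p).card = (part p).card := by
  classical
  unfold sigs
  apply card_image_of_injOn
  rintro ⟨F, T⟩ h1 ⟨F', T'⟩ h2 h
  have d1 : Disjoint T F := (mem_Obj.mp (mem_filter.mp h1).1).2
  have d2 : Disjoint T' F' := (mem_Obj.mp (mem_filter.mp h2).1).2
  have e1 : T = T' := ext_inj _ _ hp.1 (congrArg Prod.fst h)
  have e2 : T ∪ F = T' ∪ F' := ext_inj _ _ hp.1 (congrArg Prod.snd h)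
  subst e1
  have e3 : F = F' := by
    rw [← Finset.union_sdiff_cancel_left d1, e2, Finset.union_sdiff_cancel_left d2]
  subst e3
  rfl

theorem exists_rho (d : ℕ) (hd : 11 ≤ d) :
    ∃ ρ : Submodule F2 (Fin (5 * d - 16) → F2) × Submodule F2 (Fin (5 * d - 16) → F2) →
        Fin (2 ^ (d - 9)),
      ∀ p : Pat (5 * d - 16) d, goodPat p → ∀ c, ∃ x ∈ sigs p, ρ x = c := by
  refine exists_colouring (2 ^ (d - 9)) (64 * d.choose 2) Nat.one_le_two_pow sigs goodPat ?_ ?_
  · intro p hp
    rw [card_sigs p hp]
    have h := hp.2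
    rw [card_Obj] at h
    have e : 2 ^ (d - 2) = 2 ^ (d - 9) * 128 := by
      have : d - 2 = d - 9 + 7 := by omega
      rw [this, pow_add]
      norm_num
    rw [e] at h
    nlinarith
  · rw [card_Pat, ← pow_add]
    apply Nat.pow_lt_pow_right (by norm_num)
    obtain ⟨e, rfl⟩ := Nat.exists_eq_add_of_le hd
    have h2 : (11 + e).choose 2 * 2 = (11 + e) * (10 + e) := by
      have := Nat.add_one_mul_choose_eq (10 + e) 1
      have e1 : 10 + e + 1 = 11 + e := by omega
      rw [e1] at this
      simp only [Nat.choose_one_right] at this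
      exact this.symm
    have e1 : 5 * (11 + e) - 16 = 39 + 5 * e := by omega
    have e2 : 11 + e - 9 = 2 + e := by omega
    rw [e1, e2]
    nlinarith [Nat.zero_le e, Nat.zero_le (e * e)]

variable {n : ℕ}

def flips (D : Fin n → Option Bool) : Finset (Fin n) := univ.filter (fun i => D i = none)
def bot (D : Fin n → Option Bool) : Finset (Fin n) := univ.filter (fun i => D i = some true)
def top (D : Fin n → Option Bool) : Finset (Fin n) := univ.filter (fun i => D i ≠ some false)

theorem mem_flips {D : Fin n → Option Bool} {i : Fin n} : i ∈ flips D ↔ D i = none := by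
  simp [flips]

theorem mem_bot {D : Fin n → Option Bool} {i : Fin n} : i ∈ bot D ↔ D i = some true := by
  simp [bot]

theorem mem_top {D : Fin n → Option Bool} {i : Fin n} : i ∈ top D ↔ D i ≠ some false := by
  simp [top]

/-- the subcube of `C` with flip set `F` and ones `T` among the free coordinates of `C` -/
def sub {d : ℕ} (C : Fin n → Option Bool) (e : Fin d ↪ Fin n) (F T : Finset (Fin d)) :
    Fin n → Option Bool := fun i =>
  if i ∈ F.map e then none else if i ∈ T.map e then some true
    else if C i = none then some false else C i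

section
variable {d : ℕ} {C : Fin n → Option Bool} {e : Fin d ↪ Fin n}

theorem sub_ext (he : ∀ j, C (e j) = none) (F T : Finset (Fin d)) (i : Fin n) (b : Bool)
    (h : C i = some b) : sub C e F T i = some b := by
  have hn : ∀ U : Finset (Fin d), i ∉ U.map e := by
    intro U hU
    obtain ⟨j, _, rfl⟩ := mem_map.mp hU
    rw [he] at h
    cases h
  unfold sub
  rw [if_neg (hn F), if_neg (hn T), if_neg (by rw [h]; simp), h]

theorem flips_sub (F T : Finset (Fin d)) : flips (sub C e F T) = F.map e := by
  ext i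
  rw [mem_flips]
  unfold sub
  split_ifs with h1 h2 h3
  · simp [h1]
  · simp [h1]
  · simp [h1]
  · simp [h1, h3]

theorem bot_sub (he : ∀ j, C (e j) = none) (F T : Finset (Fin d)) (hd : Disjoint T F) :
    bot (sub C e F T) = bot C ∪ T.map e := by
  ext i
  rw [mem_union, mem_bot, mem_bot]
  unfold sub
  split_ifs with h1 h2 h3
  · obtain ⟨j, hj, rfl⟩ := mem_map.mp h1
    have : j ∉ T := fun h => Finset.disjoint_left.mp hd h hj
    simp [he j, this]
  · simp [h2]
  · simp [h2, h3]
  · simp [h2]

theorem top_sub (F T : Finset (Fin d)) :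
    top (sub C e F T) = bot C ∪ (T ∪ F).map e := by
  ext i
  rw [map_union, mem_union, mem_union, mem_bot, mem_top]
  unfold sub
  split_ifs with h1 h2 h3
  · simp [h1]
  · simp [h2]
  · simp [h1, h2, h3]
  · simp only [h1, h2, or_false]
    rcases hC : C i with _ | b
    · exact absurd hC h3
    · cases b <;> simp

theorem card_bot_union (he : ∀ j, C (e j) = none) (T : Finset (Fin d)) :
    (bot C ∪ T.map e).card = (bot C).card + T.card := by
  rw [card_union_of_disjoint, card_map]
  rw [Finset.disjoint_right]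
  intro i hi
  obtain ⟨j, _, rfl⟩ := mem_map.mp hi
  simp [bot, he j]

end

/-- first column of the window used for a subcube whose bottom vertex has `r` ones -/
def lo (d r : ℕ) : ℕ := r / d * d - d - (d - 8)

theorem main_colouring (n d : ℕ) (hd : 11 ≤ d) (v : Fin n → Fin (n + (d - 8)) → F2) :
    ∃ col : (Fin n → Option Bool) → Fin (2 ^ (d - 9)),
      ∀ C : Fin n → Option Bool, (flips C).card = d →
        (∀ D, (flips D).card = 2 → (∀ i b, C i = some b → D i = some b) →
          Spn v (d - 8) (bot D) ∧ Inj v (d - 8) (top D)) →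
        ∀ c, ∃ D, (flips D).card = 2 ∧ (∀ i b, C i = some b → D i = some b) ∧ col D = c := by
  classical
  obtain ⟨ρ, hρ⟩ := exists_rho d hd
  refine ⟨fun D => ρ (sig v (lo d (bot D).card) (5 * d - 16) (bot D),
    sig v (lo d (bot D).card) (5 * d - 16) (top D)), ?_⟩
  intro C hC hnd c
  let e : Fin d ↪ Fin n := ((flips C).orderEmbOfFin hC).toEmbedding
  have he : ∀ j, C (e j) = none := by
    intro j
    have : e j ∈ flips C := Finset.orderEmbOfFin_mem _ hC j
    exact (mem_filter.mp this).2
  have hflip : ∀ F T : Finset (Fin d), F.card = 2 → (flips (sub C e F T)).card = 2 := by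
    intro F T hF
    rw [flips_sub, card_map, hF]
  obtain ⟨F0, -, hF0⟩ : ∃ F0 : Finset (Fin d), F0 ⊆ univ ∧ F0.card = 2 :=
    Finset.exists_subset_card_eq (by simp; omega)
  have hS : Spn v (d - 8) (bot C) := by
    have := (hnd _ (hflip F0 ∅ hF0) (sub_ext he F0 ∅)).1
    rw [bot_sub he F0 ∅ (by simp)] at this
    simpa using this
  have hI : Inj v (d - 8) (bot C ∪ univ.map e) := by
    have := (hnd _ (hflip F0 univ hF0) (sub_ext he F0 univ)).2
    rw [top_sub F0 univ, Finset.union_eq_left.mpr (subset_univ F0)] at this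
    exact this
  set a := (bot C).card with ha
  have hdpos : 0 < d := by omega
  -- the majority block
  obtain ⟨q, hq, hmaj⟩ : ∃ q, (q = a / d ∨ q = a / d + 1) ∧
      (Obj d).card ≤ 2 * ((Obj d).filter (fun o => (a + o.2.card) / d = q)).card := by
    have hsplit : (Obj d).card ≤ ((Obj d).filter (fun o => (a + o.2.card) / d = a / d)).card
        + ((Obj d).filter (fun o => (a + o.2.card) / d = a / d + 1)).card := by
      refine le_trans (card_le_card ?_) (card_union_le _ _)
      intro o ho
      have h1 : o.2.card ≤ d := by simpa using card_le_univ o.2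
      have h2 : a / d ≤ (a + o.2.card) / d := Nat.div_le_div_right (Nat.le_add_right _ _)
      have h3 : (a + o.2.card) / d ≤ (a + d) / d := Nat.div_le_div_right (by omega)
      rw [Nat.add_div_right _ hdpos] at h3
      rw [mem_union, mem_filter, mem_filter]
      by_cases h : (a + o.2.card) / d = a / d
      · exact Or.inl ⟨ho, h⟩
      · exact Or.inr ⟨ho, by omega⟩
    by_cases h : ((Obj d).filter (fun o => (a + o.2.card) / d = a / d)).card
        ≤ ((Obj d).filter (fun o => (a + o.2.card) / d = a / d + 1)).card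
    · exact ⟨a / d + 1, Or.inr rfl, by omega⟩
    · exact ⟨a / d, Or.inl rfl, by omega⟩
  have hdm : a / d * d ≤ a := Nat.div_mul_le_self a d
  have hdm2 : a < a / d * d + d := by
    have := Nat.div_add_mod a d
    have h2 := Nat.mod_lt a hdpos
    rw [mul_comm] at this
    omega
  have hq1 : q * d ≤ a + d := by
    rcases hq with h | h <;> rw [h]
    · omega
    · rw [add_mul, one_mul]
      omega
  have hq2 : a < q * d + d := by
    rcases hq with h | h <;> rw [h]
    · omega
    · rw [add_mul, one_mul]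
      omega
  obtain ⟨b, w, hsig, hgood⟩ := exists_pattern v (d - 8) (q * d - d - (d - 8)) (5 * d - 16)
    (bot C) e (fun j => by simp [bot, he j]) hS (fun c hc => by omega) hI (by
      rw [card_bot_union he]
      simp only [card_univ, Fintype.card_fin]
      omega)
  let p : Pat (5 * d - 16) d := (b, w, fun j => decide ((a + j.1) / d = q))
  have hpart : part p = (Obj d).filter (fun o => (a + o.2.card) / d = q) := by
    unfold part
    apply filter_congr
    intro o _
    exact decide_eq_true_iff
  obtain ⟨x, hx, hxc⟩ := hρ p ⟨hgood, by rw [hpart]; exact hmaj⟩ c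
  obtain ⟨o, ho, rfl⟩ := mem_image.mp hx
  rw [hpart, mem_filter, mem_Obj] at ho
  obtain ⟨⟨ho1, ho2⟩, ho3⟩ := ho
  refine ⟨sub C e o.1 o.2, hflip _ _ ho1, sub_ext he _ _, ?_⟩
  have hlo : lo d (bot C ∪ o.2.map e).card = q * d - d - (d - 8) := by
    rw [card_bot_union he, lo, ho3]
  simp only [bot_sub he o.1 o.2 ho2, top_sub, hlo, hsig]
  exact hxc

theorem exists_labels (n K : ℕ) (Q : Finset (Fin n → Option Bool)) :
    ∃ (v : Fin n → Fin (n + K) → F2) (B : Finset (Fin n → Option Bool)),
      B.card * 2 ^ K ≤ 2 * Q.card ∧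
        ∀ D ∈ Q, D ∉ B → Spn v K (bot D) ∧ Inj v K (top D) := by
  classical
  let Ω := Fin n → Fin (n + K) → F2
  let B : Ω → Finset (Fin n → Option Bool) := fun v =>
    Q.filter (fun D => ¬ (Spn v K (bot D) ∧ Inj v K (top D)))
  have hD : ∀ D ∈ Q, ((univ : Finset Ω).filter
      (fun v => ¬ (Spn v K (bot D) ∧ Inj v K (top D)))).card * 2 ^ K ≤ 2 * Fintype.card Ω := by
    intro D _
    have c1 : (bot D).card ≤ n := by simpa using card_le_univ (bot D)
    have c2 : (top D).card ≤ n := by simpa using card_le_univ (top D)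
    have h1 := card_not_spn K (bot D) (by omega : (bot D).card ≤ n + K)
      (univ.filter (fun v : Ω => ¬ Spn v K (bot D))) (fun v hv => (mem_filter.mp hv).2)
    have h2 := card_not_inj K (top D) (by omega : (top D).card + K ≤ n + K)
      (univ.filter (fun v : Ω => ¬ Inj v K (top D))) (fun v hv => (mem_filter.mp hv).2)
    have h3 : ((univ : Finset Ω).filter
        (fun v => ¬ (Spn v K (bot D) ∧ Inj v K (top D)))).card
        ≤ (univ.filter (fun v : Ω => ¬ Spn v K (bot D))).card
          + (univ.filter (fun v : Ω => ¬ Inj v K (top D))).card := by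
      refine le_trans (card_le_card ?_) (card_union_le _ _)
      intro v hv
      have := (mem_filter.mp hv).2
      rw [mem_union, mem_filter, mem_filter]
      by_cases h : Spn v K (bot D)
      · exact Or.inr ⟨mem_univ _, fun h' => this ⟨h, h'⟩⟩
      · exact Or.inl ⟨mem_univ _, h⟩
    calc _ ≤ ((univ.filter (fun v : Ω => ¬ Spn v K (bot D))).card
          + (univ.filter (fun v : Ω => ¬ Inj v K (top D))).card) * 2 ^ K :=
          Nat.mul_le_mul_right _ h3
      _ ≤ Fintype.card Ω + Fintype.card Ω := by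
          rw [add_mul]
          exact Nat.add_le_add h1 h2
      _ = 2 * Fintype.card Ω := by ring
  have hsum : ∑ v : Ω, (B v).card * 2 ^ K ≤ ∑ _v : Ω, 2 * Q.card := by
    have e1 : ∑ v : Ω, (B v).card = ∑ D ∈ Q, ((univ : Finset Ω).filter
        (fun v => ¬ (Spn v K (bot D) ∧ Inj v K (top D)))).card := by
      simp only [B, card_filter]
      exact Finset.sum_comm
    rw [← Finset.sum_mul, e1, Finset.sum_mul]
    refine (Finset.sum_le_card_nsmul _ _ _ hD).trans (le_of_eq ?_)
    simp only [smul_eq_mul, sum_const, card_univ]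
    ring
  obtain ⟨v, _, hv⟩ := Finset.exists_le_of_sum_le univ_nonempty hsum
  refine ⟨v, B v, hv, fun D hDQ hDB => ?_⟩
  by_contra h
  exact hDB (mem_filter.mpr ⟨hDQ, h⟩)

theorem exists_free (n d : ℕ) (hd : 11 ≤ d) (Q : Finset (Fin n → Option Bool)) :
    ∃ S : Finset (Fin n → Option Bool), S ⊆ Q ∧
      (∀ C, (flips C).card = d →
        ¬ ∀ D, (flips D).card = 2 → (∀ i b, C i = some b → D i = some b) → D ∈ S) ∧
      Q.card * 2 ^ (d - 10) ≤ S.card * 2 ^ (d - 10) + Q.card := by
  classical
  obtain ⟨v, B, hB, hv⟩ := exists_labels n (d - 8) Q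
  obtain ⟨col, hcol⟩ := main_colouring n d hd v
  obtain ⟨c, hc⟩ := exists_small_class Q (2 ^ (d - 9)) Nat.one_le_two_pow col
  refine ⟨Q \ (B ∪ Q.filter (fun D => col D = c)), sdiff_subset, ?_, ?_⟩
  · intro C hC hall
    obtain ⟨D, hD, hCD, hDc⟩ := hcol C hC (fun D hD hCD => by
      have := mem_sdiff.mp (hall D hD hCD)
      exact hv D this.1 (fun h => this.2 (mem_union_left _ h))) c
    have := mem_sdiff.mp (hall D hD hCD)
    exact this.2 (mem_union_right _ (mem_filter.mpr ⟨this.1, hDc⟩))
  · have h1 : Q.card ≤ (Q \ (B ∪ Q.filter (fun D => col D = c))).card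
        + (B.card + (Q.filter (fun D => col D = c)).card) :=
      (Finset.card_le_card_sdiff_add_card).trans (Nat.add_le_add_left (card_union_le _ _) _)
    have e1 : 2 ^ (d - 8) = 2 ^ (d - 10) * 4 := by
      have : d - 8 = d - 10 + 2 := by omega
      rw [this, pow_add]
      norm_num
    have e2 : 2 ^ (d - 9) = 2 ^ (d - 10) * 2 := by
      have : d - 9 = d - 10 + 1 := by omega
      rw [this, pow_succ]
    rw [e1] at hB
    have hc' : (Q.filter (fun D => col D = c)).card * (2 ^ (d - 10) * 2) ≤ Q.card := by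
      rw [← e2]
      exact hc
    have h2 := Nat.mul_le_mul_right (2 ^ (d - 10)) h1
    nlinarith

theorem exists_emb {d : ℕ} (C : Fin n → Option Bool) (hC : (flips C).card = d) :
    ∃ e : Fin d ↪ Fin n, (∀ j, C (e j) = none) ∧ ∀ i, C i = none → ∃ j, e j = i := by
  refine ⟨((flips C).orderEmbOfFin hC).toEmbedding, fun j => ?_, fun i hi => ?_⟩
  · exact mem_flips.mp (Finset.orderEmbOfFin_mem _ hC j)
  · have h : i ∈ Set.range ((flips C).orderEmbOfFin hC) := by
      rw [Finset.range_orderEmbOfFin]
      exact mem_flips.mpr hi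
    exact h

theorem exists_two {d : ℕ} (hd : 2 ≤ d) (C : Fin n → Option Bool) (hC : (flips C).card = d) :
    ∃ D, (flips D).card = 2 ∧ ∀ i b, C i = some b → D i = some b := by
  obtain ⟨e, he, -⟩ := exists_emb C hC
  obtain ⟨F0, -, hF0⟩ : ∃ F0 : Finset (Fin d), F0 ⊆ univ ∧ F0.card = 2 :=
    Finset.exists_subset_card_eq (by simpa using hd)
  exact ⟨sub C e F0 ∅, by rw [flips_sub, card_map, hF0], sub_ext he F0 ∅⟩

theorem card_downs {d : ℕ} (C : Fin n → Option Bool) (hC : (flips C).card = d)
    (X : Finset (Fin n → Option Bool))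
    (hX : ∀ D ∈ X, (flips D).card = 2 ∧ ∀ i b, C i = some b → D i = some b) :
    X.card ≤ d.choose 2 * 2 ^ (d - 2) := by
  classical
  obtain ⟨e, he, hs⟩ := exists_emb C hC
  rw [← card_Obj]
  refine le_trans (card_le_card ?_) (card_image_le (f := fun o => sub C e o.1 o.2))
  intro D hD
  obtain ⟨h2, hext⟩ := hX D hD
  have hnone : ∀ i, D i = none → C i = none := by
    intro i hi
    rcases hCi : C i with _ | b
    · rfl
    · rw [hext i b hCi] at hi
      cases hi
  have hF : (univ.filter (fun j => D (e j) = none)).map e = flips D := by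
    ext i
    rw [mem_map, mem_flips]
    constructor
    · rintro ⟨j, hj, rfl⟩
      exact (mem_filter.mp hj).2
    · intro hi
      obtain ⟨j, rfl⟩ := hs i (hnone i hi)
      exact ⟨j, mem_filter.mpr ⟨mem_univ _, hi⟩, rfl⟩
  refine mem_image.mpr ⟨⟨univ.filter (fun j => D (e j) = none),
    univ.filter (fun j => D (e j) = some true)⟩, mem_Obj.mpr ⟨?_, ?_⟩, ?_⟩
  · rw [← h2, ← hF, card_map]
  · rw [Finset.disjoint_left]
    intro j h1 h3
    have a1 := (mem_filter.mp h1).2
    rw [(mem_filter.mp h3).2] at a1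
    cases a1
  · funext i
    unfold sub
    simp only [hF, mem_flips]
    by_cases hCi : C i = none
    · obtain ⟨j, rfl⟩ := hs i hCi
      simp only [mem_map', mem_filter, mem_univ, true_and, hCi, if_true]
      rcases D (e j) with _ | b
      · simp
      · cases b <;> simp
    · obtain ⟨b, hb⟩ := Option.ne_none_iff_exists'.mp hCi
      have hn : i ∉ (univ.filter (fun j => D (e j) = some true)).map e := by
        intro h
        obtain ⟨j, _, rfl⟩ := mem_map.mp h
        exact hCi (he j)
      rw [if_neg hn, if_neg hCi, hext i b hb, hb]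
      simp

open Classical in
theorem card_ups {d : ℕ} (hd : 2 ≤ d) (D : Fin n → Option Bool) (hD : (flips D).card = 2) :
    ((univ.filter (fun C : Fin n → Option Bool => (flips C).card = d)).filter
      (fun C => ∀ i b, C i = some b → D i = some b)).card = (n - 2).choose (d - 2) := by
  have hc : ((flips D)ᶜ.powersetCard (d - 2)).card = (n - 2).choose (d - 2) := by
    rw [card_powersetCard, card_compl, hD]
    simp
  rw [← hc]
  refine Finset.card_nbij' (fun C => flips C \ flips D)
    (fun G i => if i ∈ G then none else D i) ?_ ?_ ?_ ?_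
  · intro C hC
    have h1 := (mem_filter.mp (mem_filter.mp hC).1).2
    have h2 := (mem_filter.mp hC).2
    have hsub : flips D ⊆ flips C := by
      intro i hi
      rw [mem_flips] at hi ⊢
      rcases hCi : C i with _ | b
      · rfl
      · rw [h2 i b hCi] at hi
        cases hi
    refine mem_coe.mpr (mem_powersetCard.mpr ⟨?_, ?_⟩)
    · intro i hi
      exact mem_compl.mpr (mem_sdiff.mp hi).2
    · rw [card_sdiff_of_subset hsub, h1, hD]
  · intro G hG
    obtain ⟨h1, h2⟩ := mem_powersetCard.mp (mem_coe.mp hG)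
    refine mem_coe.mpr (mem_filter.mpr ⟨mem_filter.mpr ⟨mem_univ _, ?_⟩, ?_⟩)
    · have : flips (fun i => if i ∈ G then none else D i) = G ∪ flips D := by
        ext i
        rw [mem_union, mem_flips, mem_flips]
        by_cases hi : i ∈ G <;> simp [hi]
      rw [this, card_union_of_disjoint (subset_compl_iff_disjoint_right.mp h1), h2, hD]
      omega
    · intro i b hi
      by_cases hiG : i ∈ G
      · simp [hiG] at hi
      · simpa [hiG] using hi
  · intro C hC
    have h2 := (mem_filter.mp hC).2
    funext i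
    simp only [mem_sdiff, mem_flips]
    rcases hCi : C i with _ | b
    · by_cases h : D i = none <;> simp [h]
    · simp [h2 i b hCi]
  · intro G hG
    obtain ⟨h1, _⟩ := mem_powersetCard.mp (mem_coe.mp hG)
    ext i
    simp only [mem_sdiff, mem_flips]
    by_cases hi : i ∈ G
    · have : D i ≠ none := fun h => mem_compl.mp (h1 hi) (mem_flips.mpr h)
      simp [hi, this]
    · simp [hi]

theorem averaging {d : ℕ} (hd : 2 ≤ d) (hn : d ≤ n) (Q S : Finset (Fin n → Option Bool))
    (hQ : ∀ D, D ∈ Q ↔ (flips D).card = 2)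
    (hS : ∀ C, (flips C).card = d →
      ¬ ∀ D, (flips D).card = 2 → (∀ i b, C i = some b → D i = some b) → D ∈ S) :
    Q.card ≤ (Q \ S).card * (d.choose 2 * 2 ^ (d - 2)) := by
  classical
  let 𝒞 : Finset (Fin n → Option Bool) := univ.filter (fun C => (flips C).card = d)
  let r : (Fin n → Option Bool) → (Fin n → Option Bool) → Prop :=
    fun D C => ∀ i b, C i = some b → D i = some b
  have h1 : Q.card * (n - 2).choose (d - 2) ≤ 𝒞.card * (d.choose 2 * 2 ^ (d - 2)) := by
    refine Finset.card_mul_le_card_mul r ?_ ?_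
    · intro D hD
      exact le_of_eq (by
        rw [← card_ups hd D ((hQ D).mp hD)]
        unfold Finset.bipartiteAbove
        congr)
    · intro C hC
      refine card_downs C (mem_filter.mp hC).2 _ (fun D hD => ?_)
      have := (Finset.mem_bipartiteBelow r).mp hD
      exact ⟨(hQ D).mp this.1, this.2⟩
  have h2 : 𝒞.card * 1 ≤ (Q \ S).card * (n - 2).choose (d - 2) := by
    refine Finset.card_mul_le_card_mul' r ?_ ?_
    · intro C hC
      have := hS C (mem_filter.mp hC).2
      push Not at this
      obtain ⟨D, hD, hCD, hDS⟩ := this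
      exact Finset.card_pos.mpr ⟨D, (Finset.mem_bipartiteBelow r).mpr
        ⟨mem_sdiff.mpr ⟨(hQ D).mpr hD, hDS⟩, hCD⟩⟩
    · intro D hD
      exact le_of_eq (by
        rw [← card_ups hd D ((hQ D).mp (mem_sdiff.mp hD).1)]
        unfold Finset.bipartiteAbove
        congr)
  have hpos : 0 < (n - 2).choose (d - 2) := Nat.choose_pos (by omega)
  have h3 : Q.card * (n - 2).choose (d - 2)
      ≤ ((Q \ S).card * (d.choose 2 * 2 ^ (d - 2))) * (n - 2).choose (d - 2) := by
    calc _ ≤ 𝒞.card * 1 * (d.choose 2 * 2 ^ (d - 2)) := by rw [mul_one]; exact h1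
      _ ≤ (Q \ S).card * (n - 2).choose (d - 2) * (d.choose 2 * 2 ^ (d - 2)) :=
          Nat.mul_le_mul_right _ h2
      _ = _ := by ring
  exact Nat.le_of_mul_le_mul_right h3 hpos

end Pool.Agent.MP_1cd2aa_co
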