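import Pool.Agent.P.MP_1cd2aa_co.Main

/-! A sparse family of 2-subcubes that meets every `d`-subcube in every pair of directions. -/

set_option autoImplicit false
open Finset

namespace Pool.Agent.MP_1cd2aa_co

def partF {m d : ℕ} (p : Pat m d × Finset (Fin d)) : Finset (Finset (Fin d)) :=
  (p.2ᶜ.powerset).filter (fun T => p.1.2.2 (lev T) = true)

open Classical in
noncomputable def sigsF {m d : ℕ} (p : Pat m d × Finset (Fin d)) :
    Finset (Submodule F2 (Fin m → F2)) :=
  (partF p).image (ext p.1.1 p.1.2.1)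

def goodF {m d : ℕ} (p : Pat m d × Finset (Fin d)) : Prop :=
  (∀ T j, p.1.2.1 j ∈ ext p.1.1 p.1.2.1 T → j ∈ T) ∧ 2 ^ (d - 3) ≤ (partF p).card

theorem exists_rhoF (d q : ℕ) (hd : 11 ≤ d) (hq1 : 1 ≤ q) (hq : q * (30 * d ^ 2) ≤ 2 ^ (d - 3)) :
    ∃ ρ : Submodule F2 (Fin (5 * d - 16) → F2) → Fin q,
      ∀ p : Pat (5 * d - 16) d × Finset (Fin d), goodF p → ∀ c, ∃ x ∈ sigsF p, ρ x = c := by
  classical
  refine exists_colouring q (30 * d ^ 2) hq1 sigsF goodF ?_ ?_
  · intro p hp
    unfold sigsF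
    rw [card_image_of_injOn fun T _ T' _ h => ext_inj _ _ hp.1 h]
    exact hq.trans hp.2
  · have h1 : q ≤ 2 ^ d := by
      have h2 : 2 ^ (d - 3) ≤ 2 ^ d := Nat.pow_le_pow_right (by norm_num) (by omega)
      have h3 : 1 ≤ 30 * d ^ 2 := by nlinarith
      nlinarith
    rw [Fintype.card_prod, card_Pat, Fintype.card_finset, Fintype.card_fin, ← pow_add]
    refine lt_of_le_of_lt (Nat.mul_le_mul_right _ h1) ?_
    rw [← pow_add]
    apply Nat.pow_lt_pow_right (by norm_num)
    obtain ⟨e, rfl⟩ := Nat.exists_eq_add_of_le hd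
    have e1 : 5 * (11 + e) - 16 = 39 + 5 * e := by omega
    rw [e1]
    nlinarith [Nat.zero_le e, Nat.zero_le (e * e)]

variable {n : ℕ}

theorem exists_embF {d : ℕ} (C : Fin n → Option Bool) (hC : (flips C).card = d)
    (G : Finset (Fin n)) (hG : G ⊆ flips C) :
    ∃ (e : Fin d ↪ Fin n) (F : Finset (Fin d)), (∀ j, C (e j) = none) ∧ F.map e = G := by
  obtain ⟨e, he, hs⟩ := exists_emb C hC
  refine ⟨e, univ.filter fun j => e j ∈ G, he, ?_⟩
  ext i
  simp only [mem_map, mem_filter, mem_univ, true_and]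
  constructor
  · rintro ⟨j, hj, rfl⟩
    exact hj
  · intro hi
    obtain ⟨j, rfl⟩ := hs i (mem_flips.mp (hG hi))
    exact ⟨j, hi, rfl⟩

theorem pair_colouring (n d q : ℕ) (hd : 11 ≤ d) (hq1 : 1 ≤ q)
    (hq : q * (30 * d ^ 2) ≤ 2 ^ (d - 3)) (v : Fin n → Fin (n + (d - 8)) → F2) :
    ∃ col : (Fin n → Option Bool) → Fin q,
      ∀ C : Fin n → Option Bool, (flips C).card = d → ∀ G ⊆ flips C, G.card = 2 →
        (∀ D, flips D = G → (∀ i b, C i = some b → D i = some b) →
          Spn v (d - 8) (bot D) ∧ Inj v (d - 8) (top D)) →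
        ∀ c, ∃ D, flips D = G ∧ (∀ i b, C i = some b → D i = some b) ∧ col D = c := by
  classical
  obtain ⟨ρ, hρ⟩ := exists_rhoF d q hd hq1 hq
  refine ⟨fun D => ρ (sig v (lo d (bot D).card) (5 * d - 16) (bot D)), ?_⟩
  intro C hC G hG hG2 hnd c
  obtain ⟨e, F, he, hF⟩ := exists_embF C hC G hG
  have hflip : ∀ T : Finset (Fin d), flips (sub C e F T) = G := fun T => by rw [flips_sub, hF]
  have hS : Spn v (d - 8) (bot C) := by
    have := (hnd _ (hflip ∅) (sub_ext he F ∅)).1
    rw [bot_sub he F ∅ (by simp)] at this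
    simpa using this
  have hI : Inj v (d - 8) (bot C ∪ univ.map e) := by
    have := (hnd _ (hflip univ) (sub_ext he F univ)).2
    rw [top_sub F univ, Finset.union_eq_left.mpr (subset_univ F)] at this
    exact this
  set a := (bot C).card with ha
  have hdpos : 0 < d := by omega
  have hcard : (Fᶜ.powerset).card = 2 * 2 ^ (d - 3) := by
    have h1 : F.card = 2 := by rw [← hG2, ← hF, card_map]
    have h2 : d - 2 = d - 3 + 1 := by omega
    rw [card_powerset, card_compl, h1, Fintype.card_fin, h2, pow_succ, mul_comm]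
  obtain ⟨k, hk, hmaj⟩ : ∃ k, (k = a / d ∨ k = a / d + 1) ∧
      2 ^ (d - 3) ≤ ((Fᶜ.powerset).filter (fun T => (a + T.card) / d = k)).card := by
    have hsplit : (Fᶜ.powerset).card ≤
        ((Fᶜ.powerset).filter (fun T => (a + T.card) / d = a / d)).card
        + ((Fᶜ.powerset).filter (fun T => (a + T.card) / d = a / d + 1)).card := by
      refine le_trans (card_le_card ?_) (card_union_le _ _)
      intro T hT
      have h1 : T.card ≤ d := by simpa using card_le_univ T
      have h2 : a / d ≤ (a + T.card) / d := Nat.div_le_div_right (Nat.le_add_right _ _)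
      have h3 : (a + T.card) / d ≤ (a + d) / d := Nat.div_le_div_right (by omega)
      rw [Nat.add_div_right _ hdpos] at h3
      rw [mem_union, mem_filter, mem_filter]
      by_cases h : (a + T.card) / d = a / d
      · exact Or.inl ⟨hT, h⟩
      · exact Or.inr ⟨hT, by omega⟩
    by_cases h : ((Fᶜ.powerset).filter (fun T => (a + T.card) / d = a / d)).card
        ≤ ((Fᶜ.powerset).filter (fun T => (a + T.card) / d = a / d + 1)).card
    · exact ⟨a / d + 1, Or.inr rfl, by omega⟩
    · exact ⟨a / d, Or.inl rfl, by omega⟩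
  have hdm : a / d * d ≤ a := Nat.div_mul_le_self a d
  have hdm2 : a < a / d * d + d := by
    have := Nat.div_add_mod a d
    have h2 := Nat.mod_lt a hdpos
    rw [mul_comm] at this
    omega
  have hk1 : k * d ≤ a + d := by
    rcases hk with h | h <;> rw [h]
    · omega
    · rw [add_mul, one_mul]
      omega
  have hk2 : a < k * d + d := by
    rcases hk with h | h <;> rw [h]
    · omega
    · rw [add_mul, one_mul]
      omega
  obtain ⟨b, w, hsig, hgood⟩ := exists_pattern v (d - 8) (k * d - d - (d - 8)) (5 * d - 16)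
    (bot C) e (fun j => by simp [bot, he j]) hS (fun c hc => by omega) hI (by
      rw [card_bot_union he]
      simp only [card_univ, Fintype.card_fin]
      omega)
  let p : Pat (5 * d - 16) d × Finset (Fin d) :=
    ((b, w, fun j => decide ((a + j.1) / d = k)), F)
  have hpart : partF p = (Fᶜ.powerset).filter (fun T => (a + T.card) / d = k) := by
    unfold partF
    apply filter_congr
    intro o _
    exact decide_eq_true_iff
  obtain ⟨x, hx, hxc⟩ := hρ p ⟨hgood, by rw [hpart]; exact hmaj⟩ c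
  obtain ⟨T, hT, rfl⟩ := mem_image.mp hx
  rw [hpart, mem_filter, mem_powerset, subset_compl_iff_disjoint_right] at hT
  refine ⟨sub C e F T, hflip T, sub_ext he _ _, ?_⟩
  have hlo : lo d (bot C ∪ T.map e).card = k * d - d - (d - 8) := by
    rw [card_bot_union he, lo, hT.2]
  simp only [bot_sub he F T hT.1, hlo, hsig]
  exact hxc

/-- a family of density `O(d ^ 2 / 2 ^ d)` that meets every `d`-subcube in every pair of
directions -/
theorem exists_pair_family (n d : ℕ) (hd : 3 ≤ d) (Q : Finset (Fin n → Option Bool))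
    (hQ : ∀ D, D ∈ Q ↔ (flips D).card = 2) :
    ∃ A : Finset (Fin n → Option Bool), A ⊆ Q ∧ A.card * 2 ^ d ≤ (480 * d ^ 2 + 512) * Q.card ∧
      ∀ C, (flips C).card = d → ∀ G ⊆ flips C, G.card = 2 →
        ∃ D ∈ A, flips D = G ∧ ∀ i b, C i = some b → D i = some b := by
  classical
  have e3 : 2 ^ d = 2 ^ (d - 3) * 8 := by
    have : d = d - 3 + 3 := by omega
    conv_lhs => rw [this, pow_add]
    norm_num
  by_cases h : 30 * d ^ 2 ≤ 2 ^ (d - 3)
  · have hd11 : 11 ≤ d := by
      by_contra hlt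
      have : d < 11 := by omega
      interval_cases d <;> norm_num at h
    have hpos : 0 < 30 * d ^ 2 := by positivity
    obtain ⟨q, hq1, hq, hq'⟩ : ∃ q, 1 ≤ q ∧ q * (30 * d ^ 2) ≤ 2 ^ (d - 3) ∧
        2 ^ (d - 3) ≤ 2 * q * (30 * d ^ 2) := by
      have h1 : 1 ≤ 2 ^ (d - 3) / (30 * d ^ 2) := (Nat.one_le_div_iff hpos).mpr h
      refine ⟨_, h1, Nat.div_mul_le_self _ _, ?_⟩
      have h2 := Nat.lt_div_mul_add (a := 2 ^ (d - 3)) hpos
      nlinarith
    obtain ⟨v, B, hB, hv⟩ := exists_labels n (d - 8) Q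
    obtain ⟨col, hcol⟩ := pair_colouring n d q hd11 hq1 hq v
    obtain ⟨c, hc⟩ := exists_small_class Q q hq1 col
    refine ⟨Q ∩ B ∪ Q.filter (fun D => col D = c),
      union_subset inter_subset_left (filter_subset _ _), ?_, fun C hC G hG hG2 => ?_⟩
    · have h1 : (Q ∩ B ∪ Q.filter (fun D => col D = c)).card ≤
          B.card + (Q.filter (fun D => col D = c)).card :=
        (card_union_le _ _).trans (Nat.add_le_add_right (card_le_card inter_subset_right) _)
      have e8 : 2 ^ d = 2 ^ (d - 8) * 256 := by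
        have : d = d - 8 + 8 := by omega
        conv_lhs => rw [this, pow_add]
        norm_num
      have h2 : B.card * 2 ^ d ≤ 512 * Q.card := by
        rw [e8]
        nlinarith
      have h3 : (Q.filter (fun D => col D = c)).card * 2 ^ d ≤ 480 * d ^ 2 * Q.card := by
        calc _ ≤ (Q.filter (fun D => col D = c)).card * (2 * q * (30 * d ^ 2) * 8) := by
              rw [e3]
              exact Nat.mul_le_mul_left _ (Nat.mul_le_mul_right _ hq')
          _ = 480 * d ^ 2 * ((Q.filter (fun D => col D = c)).card * q) := by ring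
          _ ≤ _ := Nat.mul_le_mul_left _ hc
      have h4 := Nat.mul_le_mul_right (2 ^ d) h1
      nlinarith
    · by_contra hne
      have hnot : ∀ D, flips D = G → (∀ i b, C i = some b → D i = some b) →
          D ∉ Q ∩ B ∪ Q.filter (fun D => col D = c) := fun D h1 h2 h3 => hne ⟨D, h3, h1, h2⟩
      have hmem : ∀ D, flips D = G → D ∈ Q := fun D h1 => (hQ D).mpr (by rw [h1, hG2])
      obtain ⟨D, h1, h2, h3⟩ := hcol C hC G hG hG2 (fun D h1 h2 => hv D (hmem D h1) fun hB' =>
        hnot D h1 h2 (mem_union_left _ (mem_inter.mpr ⟨hmem D h1, hB'⟩))) c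
      exact hnot D h1 h2 (mem_union_right _ (mem_filter.mpr ⟨hmem D h1, h3⟩))
  · refine ⟨Q, subset_rfl, ?_, fun C hC G hG hG2 => ?_⟩
    · rw [mul_comm]
      exact Nat.mul_le_mul_right _ (by omega)
    · obtain ⟨e, F, he, hF⟩ := exists_embF C hC G hG
      have h1 : flips (sub C e F ∅) = G := by rw [flips_sub, hF]
      exact ⟨_, (hQ _).mpr (by rw [h1, hG2]), h1, sub_ext he F ∅⟩

end Pool.Agent.MP_1cd2aa_co
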