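import Pool.Agent.P.MP_1cd2aa_co.Main

set_option autoImplicit false
open Classical Finset

namespace Pool.Agent.Results.MP_1cd2aa_co.ExpOrder

open Pool.Agent.MP_1cd2aa_co

/-- Subcubes of the `n`-cube are words over `0, 1, *` (`none` is `*`). `ex` is the largest size of
a family of 2-subcubes that does not hold all 2-subcubes of any `d`-subcube, `N` the number of all
2-subcubes. Then `1 - ex / N` is at most `1024 / 2^d`. -/
theorem result (n d : ℕ) (hd : 2 ≤ d) (hn : d ≤ n) (ex N : ℕ)
    (hex : ex = ((Finset.univ : Finset (Finset (Fin n → Option Bool))).filter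
      (fun F =>
        (∀ x ∈ F, (Finset.univ.filter (fun i => x i = none)).card = 2) ∧
        ∀ C : Fin n → Option Bool,
          (Finset.univ.filter (fun i => C i = none)).card = d →
          ¬ (∀ D : Fin n → Option Bool,
              (Finset.univ.filter (fun i => D i = none)).card = 2 →
              (∀ (i : Fin n) (b : Bool), C i = some b → D i = some b) →
              D ∈ F))).sup Finset.card)
    (hN : N = ((Finset.univ : Finset (Fin n → Option Bool)).filter
      (fun D => (Finset.univ.filter (fun i => D i = none)).card = 2)).card) :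
    1 - (ex : ℝ) / N ≤ 1024 / 2 ^ d := by
  set Q : Finset (Fin n → Option Bool) := Finset.univ.filter
      (fun D => (Finset.univ.filter (fun i => D i = none)).card = 2) with hQdef
  have hQ : ∀ D, D ∈ Q ↔ (flips D).card = 2 := by
    intro D
    rw [hQdef, mem_filter]
    exact ⟨fun h => h.2, fun h => ⟨mem_univ _, h⟩⟩
  set 𝓕 : Finset (Finset (Fin n → Option Bool)) := Finset.univ.filter
      (fun F =>
        (∀ x ∈ F, (Finset.univ.filter (fun i => x i = none)).card = 2) ∧
        ∀ C : Fin n → Option Bool,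
          (Finset.univ.filter (fun i => C i = none)).card = d →
          ¬ (∀ D : Fin n → Option Bool,
              (Finset.univ.filter (fun i => D i = none)).card = 2 →
              (∀ (i : Fin n) (b : Bool), C i = some b → D i = some b) →
              D ∈ F)) with hFdef
  have hF : ∀ S, S ∈ 𝓕 ↔ S ⊆ Q ∧ ∀ C, (flips C).card = d →
      ¬ ∀ D, (flips D).card = 2 → (∀ i b, C i = some b → D i = some b) → D ∈ S := by
    intro S
    rw [hFdef, mem_filter]
    exact ⟨fun h => ⟨fun x hx => (hQ x).mpr (h.2.1 x hx), h.2.2⟩,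
      fun h => ⟨mem_univ _, fun x hx => (hQ x).mp (h.1 hx), h.2⟩⟩
  have hNpos : 0 < N := by
    obtain ⟨D, hD, -⟩ := exists_two (n := n) (d := n) (hd.trans hn) (fun _ => none)
      (by simp [flips])
    rw [hN]
    exact card_pos.mpr ⟨D, (hQ D).mpr hD⟩
  have hNR : (0 : ℝ) < N := by exact_mod_cast hNpos
  by_cases h11 : 11 ≤ d
  · obtain ⟨S, hSQ, hfree, hcard⟩ := exists_free n d h11 Q
    have h1 : S.card ≤ ex := by
      rw [hex]
      exact Finset.le_sup (f := Finset.card) ((hF S).mpr ⟨hSQ, hfree⟩)
    rw [← hN] at hcard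
    have h2 : N * 2 ^ (d - 10) ≤ ex * 2 ^ (d - 10) + N :=
      hcard.trans (Nat.add_le_add_right (Nat.mul_le_mul_right _ h1) _)
    have h2R : (N : ℝ) * 2 ^ (d - 10) ≤ (ex : ℝ) * 2 ^ (d - 10) + N := by exact_mod_cast h2
    have e1 : (2 : ℝ) ^ d = 2 ^ (d - 10) * 1024 := by
      have : d = d - 10 + 10 := by omega
      conv_lhs => rw [this, pow_add]
      norm_num
    have e : 1 - (ex : ℝ) / N = ((N : ℝ) - ex) / N := by
      field_simp
    rw [e, div_le_div_iff₀ hNR (by positivity), e1]
    nlinarith
  · have h1 : (2 : ℝ) ^ d ≤ 2 ^ 10 := pow_le_pow_right₀ (by norm_num) (by omega)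
    have h2 : (1 : ℝ) ≤ 1024 / 2 ^ d := by
      rw [le_div_iff₀ (by positivity)]
      linarith
    have h3 : (0 : ℝ) ≤ (ex : ℝ) / N := by positivity
    linarith

end Pool.Agent.Results.MP_1cd2aa_co.ExpOrder
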